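import Pool.Agent.Lib.MP_b07157_agM.TDefs
import Pool.Agent.Lib.MP_b07157_agE.EDefs

/-!
# A condition on the points of a projective hypersurface
-/

noncomputable section

namespace MPb07157

open MvPolynomial

variable {n : ℕ}

/-- `d ≥ n`, and at each critical point `p ≠ 0` with `f(p) = 0` the Hessian matrix of `f` has rank at
least two, or the multiplicity of `f` at `p` is at most `d/n`. -/
def RankRoot (f : MvPolynomial (Fin n) ℂ) (d : ℕ) : Prop :=
  n ≤ d ∧ ∀ p ≠ 0, eval p f = 0 → (∀ i, eval p (pderiv i f) = 0) →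
    2 ≤ (YG.hessAt f p).rank ∨
      ∃ v : Fin n →₀ ℕ, n * v.degree ≤ d ∧ coeff v (translate p f) ≠ 0

end MPb07157
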