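import Pool.Agent.Lib.MP_b07157_agM.StrR
import Pool.Agent.Lib.MP_b07157_agM.TDefs
import Pool.Agent.Lib.MP_b07157_agQ.Mult
import Pool.Agent.Lib.MP_b07157_agSD.Glob

/-!
# Homogeneous polynomials of large degree: the root `-n/d`
-/

noncomputable section

namespace MPb07157

open MvPolynomial MeasureTheory

variable {n : ℕ}

/-- The condition `ConeRoot` from the multiplicities of the points `p ≠ 0`. -/
theorem ConeRoot.of_mult {f : MvPolynomial (Fin n) ℂ} {d : ℕ} (hd : 0 < d)
    (hh : f.IsHomogeneous d)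
    (hm : ∀ p ≠ 0, ∃ v : Fin n →₀ ℕ, n * v.degree ≤ d ∧ coeff v (translate p f) ≠ 0) :
    ConeRoot f d :=
  Or.inl (Or.inl fun _ hc0 hc => integrable_of_mult hd hh hm hc0 hc)

/-- A point at which `f`, or its gradient, or its Hessian matrix does not vanish has multiplicity at
most two. -/
theorem exists_coeff_of_hess {f : MvPolynomial (Fin n) ℂ} {p : Fin n → ℂ}
    (h : eval p f = 0 → (∀ i, eval p (pderiv i f) = 0) → YG.hessAt f p ≠ 0) :
    ∃ v : Fin n →₀ ℕ, v.degree ≤ 2 ∧ coeff v (translate p f) ≠ 0 := by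
  by_cases h0 : eval p f = 0
  swap
  · refine ⟨0, by simp, ?_⟩
    rw [← constantCoeff_eq, Str.constantCoeff_translate]
    exact h0
  by_cases h1 : ∀ i, eval p (pderiv i f) = 0
  swap
  · push Not at h1
    obtain ⟨i, hi⟩ := h1
    refine ⟨Finsupp.single i 1, by rw [Finsupp.degree_single]; norm_num, ?_⟩
    rw [Str.coeff_single_eq, pderiv_translate, Str.constantCoeff_translate]
    exact hi
  obtain ⟨i, j, hij⟩ : ∃ i j, eval p (pderiv i (pderiv j f)) ≠ 0 := by
    by_contra hcon
    push Not at hcon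
    exact h h0 h1 (Matrix.ext hcon)
  refine ⟨Finsupp.single i 1 + Finsupp.single j 1, by
    rw [map_add, Finsupp.degree_single, Finsupp.degree_single], fun hz => hij ?_⟩
  rw [← Str.constantCoeff_translate, ← pderiv_translate, ← pderiv_translate, constantCoeff_eq,
    coeff_pderiv, coeff_pderiv, zero_add, hz, zero_mul, zero_mul]

/-- The condition `ConeRoot` for homogeneous polynomials of degree `d ≥ 2n` with double points. -/
theorem ConeRoot.of_double {f : MvPolynomial (Fin n) ℂ} {d : ℕ} (hd : 0 < d)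
    (hh : f.IsHomogeneous d) (h2 : 2 * n ≤ d)
    (h : ∀ p ≠ 0, eval p f = 0 → (∀ i, eval p (pderiv i f) = 0) → YG.hessAt f p ≠ 0) :
    ConeRoot f d := by
  refine ConeRoot.of_mult hd hh fun p hp => ?_
  obtain ⟨v, hv, hv'⟩ := exists_coeff_of_hess (h p hp)
  refine ⟨v, ?_, hv'⟩
  calc n * v.degree ≤ n * 2 := Nat.mul_le_mul_left n hv
    _ = 2 * n := mul_comm _ _
    _ ≤ d := h2

/-- **Homogeneous polynomials** of degree `n` in `n` variables, or with the condition `ConeRoot`,
covered outside the origin by sets along which the conjecture is known. -/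
theorem SmcLoc.of_coneM' {f : MvPolynomial (Fin n) ℂ} (hf : f ≠ 0) {d : ℕ} (hd : 0 < d)
    (hh : f.IsHomogeneous d) {T : Set (Set (Fin n → ℂ))}
    (hT : T.Finite) (hcov : ∀ p, p ≠ 0 → eval p f = 0 → ∃ W ∈ T, p ∈ W)
    (h : ∀ W ∈ T, IsConstr W ∧ MonoAlong f W) (hroot : d = n ∨ ConeRoot f d) : SmcLoc f := by
  rcases hroot with rfl | hroot
  swap
  · exact SmcLoc.of_coneM hf hd hh hT hcov h hroot
  intro s₀ hs hpole b hb
  have hbg : IsBernsteinSato f b := isBernsteinSato_of_form_homogeneous hh hb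
  by_cases hs1 : s₀ = -1
  · have h0 : (0 : Fin d →₀ ℕ) ∉ f.support := by
      rw [notMem_support_iff]
      exact hh.coeff_eq_zero (by simp; omega)
    rw [hs1]
    exact neg_one_root hf h0 b hb
  by_contra hcon
  apply hpole
  have h1 : s₀ ≠ -((d : ℚ) / d) := by
    rw [div_self (by exact_mod_cast hd.ne')]
    exact hs1
  refine (zmot_mem_of_coneM hf hd hh hT hcov (fun W hW => (h W hW).1) h1
    fun W hW V hV hVc hV0 => ?_).2
  by_contra hser
  exact hcon ((h W hW).2 V hV hVc hV0 s₀ hs hs1 hser b hbg)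

end MPb07157
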