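import Pool.Agent.Lib.MP_b07157_agQ.MultC

/-!
# The estimate on a disc with radius proportional to the derivative
-/

noncomputable section

namespace MPb07157

open MeasureTheory Metric Module Polynomial MPb07157M
open scoped ENNReal

namespace LT2

theorem lintegral_scale {r : ℝ} (hr : 0 < r) (δ : ℝ) {g : ℂ → ℝ≥0∞} (hg : Measurable g) :
    ∫⁻ t in closedBall (0 : ℂ) (r * δ), g t =
      ENNReal.ofReal (r ^ 2) * ∫⁻ s in closedBall (0 : ℂ) δ, g (r • s) := by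
  rw [← lintegral_indicator measurableSet_closedBall, ← lintegral_indicator measurableSet_closedBall]
  set h : ℂ → ℝ≥0∞ := (closedBall (0 : ℂ) (r * δ)).indicator g with hh
  have hm : Measurable h := hg.indicator measurableSet_closedBall
  have h1 := Measure.map_addHaar_smul (volume : Measure ℂ) (r := r) hr.ne'
  have h2 : ∫⁻ x, h x ∂(Measure.map (fun x : ℂ => r • x) volume) =
      ∫⁻ y, h (r • y) := lintegral_map hm (measurable_const_smul _)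
  rw [h1, lintegral_smul_measure, smul_eq_mul, Complex.finrank_real_complex] at h2
  have h3 : (closedBall (0 : ℂ) δ).indicator (fun s => g (r • s)) = fun y => h (r • y) := by
    funext y
    have h4 : (r • y ∈ closedBall (0 : ℂ) (r * δ)) ↔ y ∈ closedBall (0 : ℂ) δ := by
      rw [mem_closedBall_zero_iff, mem_closedBall_zero_iff, norm_smul,
        Real.norm_of_nonneg hr.le]
      exact mul_le_mul_iff_of_pos_left hr
    by_cases hy : y ∈ closedBall (0 : ℂ) δ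
    · rw [Set.indicator_of_mem hy, hh, Set.indicator_of_mem (h4.2 hy)]
    · rw [Set.indicator_of_notMem hy, hh, Set.indicator_of_notMem (fun h => hy (h4.1 h))]
  rw [h3, ← h2, ← mul_assoc, ← ENNReal.ofReal_mul (by positivity), abs_of_pos (by positivity),
    mul_inv_cancel₀ (by positivity), ENNReal.ofReal_one, one_mul]

/-- The estimate on a disc of radius `κ |P'(0)|`. -/
theorem exists_disc (N : ℕ) {c M : ℝ} (hc0 : 0 < c) (hc1 : c < 1) (hM : 0 < M) :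
    ∃ B : ℝ≥0∞, B < ∞ ∧ ∃ κ : ℝ, 0 < κ ∧ ∀ P : ℂ[X], P.natDegree ≤ N →
      (∀ k, ‖P.coeff k‖ ≤ M) → P.coeff 1 ≠ 0 →
      ∫⁻ t in closedBall (0 : ℂ) (κ * ‖P.coeff 1‖), ‖P.eval t‖ₑ ^ (-(2 * c)) ≤
        B * (‖P.coeff 1‖ₑ ^ 2 * ‖P.coeff 1‖ₑ ^ (-(4 * c))) := by
  obtain ⟨B₀, hB₀, hB⟩ := exists_bound_disc N 1 hc0 (by push_cast; linarith) (ε := 1 / 2)
    (by norm_num)
  set κ : ℝ := 1 / (8 * M * (N + 1)) with hκ
  have hN : (0 : ℝ) ≤ N := Nat.cast_nonneg N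
  have hκ0 : 0 < κ := by positivity
  have hκM : κ * (8 * M * (N + 1)) = 1 := by
    rw [hκ]
    field_simp
  have h4κ : (0 : ℝ) < 4 * κ := by positivity
  refine ⟨ENNReal.ofReal ((4 * κ) ^ 2) * (ENNReal.ofReal (4 * κ) ^ (-(2 * c)) * B₀), ?_, κ, hκ0,
    fun P hP hcoef hP1 => ?_⟩
  · refine ENNReal.mul_lt_top ENNReal.ofReal_lt_top (ENNReal.mul_lt_top ?_ hB₀)
    rw [ENNReal.rpow_neg, ENNReal.inv_lt_top]
    exact ENNReal.rpow_pos (ENNReal.ofReal_pos.2 h4κ) ENNReal.ofReal_ne_top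
  set a : ℂ := P.coeff 1 with ha
  have ha0 : 0 < ‖a‖ := norm_pos_iff.2 hP1
  have haM : ‖a‖ ≤ M := hcoef 1
  set r : ℝ := 4 * κ * ‖a‖ with hr
  have hr0 : 0 < r := by positivity
  have hrM : r ≤ 4 * κ * M := mul_le_mul_of_nonneg_left haM h4κ.le
  have hκM1 : 4 * κ * M * (N + 1) = 1 / 2 := by nlinarith
  have hκM2 : 4 * κ * M ≤ 1 / 2 := by nlinarith [mul_nonneg (mul_nonneg h4κ.le hM.le) hN]
  have hr1 : r ≤ 1 := by linarith
  set Q : ℂ[X] := C (((r * ‖a‖ : ℝ) : ℂ)⁻¹) * P.comp (C (r : ℂ) * X) with hQ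
  have hra : 0 < r * ‖a‖ := by positivity
  have hraC : ((r * ‖a‖ : ℝ) : ℂ) ≠ 0 := by exact_mod_cast hra.ne'
  have hQc : ∀ k, Q.coeff k = ((r * ‖a‖ : ℝ) : ℂ)⁻¹ * (P.coeff k * (r : ℂ) ^ k) := by
    intro k
    rw [hQ, coeff_C_mul, comp_C_mul_X_coeff]
  have hQn : ∀ k, ‖Q.coeff k‖ = ‖P.coeff k‖ * r ^ k / (r * ‖a‖) := by
    intro k
    rw [hQc, norm_mul, norm_inv, norm_mul, norm_pow, Complex.norm_real, Complex.norm_real,
      Real.norm_of_nonneg hra.le, Real.norm_of_nonneg hr0.le]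
    field_simp
  have hQd : Q.natDegree ≤ N := by
    refine (natDegree_C_mul_le _ _).trans ?_
    rw [Polynomial.natDegree_le_iff_coeff_eq_zero]
    intro k hk
    rw [comp_C_mul_X_coeff, coeff_eq_zero_of_natDegree_lt (lt_of_le_of_lt hP hk), zero_mul]
  have hQ1 : ‖Q.coeff 1‖ = 1 := by
    rw [hQn, pow_one, ← ha]
    field_simp
  have htl : tl N 1 ((((1 : ℕ) : ℝ) + 1) * (1 / 4)) Q ≤ 1 / 2 := by
    unfold tl
    have h1 : ∀ k ∈ Finset.Ioc 1 N, ‖Q.coeff k‖ * ((((1 : ℕ) : ℝ) + 1) * (1 / 4)) ^ (k - 1) ≤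
        4 * κ * M := by
      intro k hk
      rw [Finset.mem_Ioc] at hk
      have h2 : ((((1 : ℕ) : ℝ) + 1) * (1 / 4)) ^ (k - 1) ≤ 1 :=
        pow_le_one₀ (by norm_num) (by norm_num)
      have h3 : ‖Q.coeff k‖ ≤ 4 * κ * M := by
        rw [hQn, div_le_iff₀ hra]
        have h4 : r ^ k ≤ r ^ 2 := pow_le_pow_of_le_one hr0.le hr1 (by omega)
        calc ‖P.coeff k‖ * r ^ k ≤ M * r ^ 2 :=
              mul_le_mul (hcoef k) h4 (by positivity) hM.le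
          _ = 4 * κ * M * (r * ‖a‖) := by rw [hr]; ring
      calc ‖Q.coeff k‖ * ((((1 : ℕ) : ℝ) + 1) * (1 / 4)) ^ (k - 1) ≤ ‖Q.coeff k‖ * 1 :=
            mul_le_mul_of_nonneg_left h2 (norm_nonneg _)
        _ ≤ 4 * κ * M := by rw [mul_one]; exact h3
    calc ∑ k ∈ Finset.Ioc 1 N, ‖Q.coeff k‖ * ((((1 : ℕ) : ℝ) + 1) * (1 / 4)) ^ (k - 1)
        ≤ ∑ _k ∈ Finset.Ioc 1 N, 4 * κ * M := Finset.sum_le_sum h1
      _ = ((N - 1 : ℕ) : ℝ) * (4 * κ * M) := by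
          rw [Finset.sum_const, Nat.card_Ioc, nsmul_eq_mul]
      _ ≤ (N + 1) * (4 * κ * M) := by
          refine mul_le_mul_of_nonneg_right ?_ (by positivity)
          have : ((N - 1 : ℕ) : ℝ) ≤ N := by exact_mod_cast Nat.sub_le N 1
          linarith
      _ = 1 / 2 := by rw [mul_comm]; exact hκM1
  have hBQ := hB (1 / 4) (by norm_num) le_rfl Q hQd (by rw [hQ1]; linarith)
  have hPm : Measurable (fun t : ℂ => ‖P.eval t‖ₑ ^ (-(2 * c))) :=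
    (P.continuous.measurable.enorm).pow_const _
  have hrad : κ * ‖a‖ = r * (1 / 4) := by rw [hr]; ring
  have hPQ : ∀ s : ℂ, ‖P.eval (r • s)‖ₑ = ENNReal.ofReal (r * ‖a‖) * ‖Q.eval s‖ₑ := by
    intro s
    have h1 : P.eval (r • s) = ((r * ‖a‖ : ℝ) : ℂ) * Q.eval s := by
      rw [hQ, eval_mul, eval_C, eval_comp, eval_mul, eval_C, eval_X, mul_inv_cancel_left₀ hraC,
        Complex.real_smul]
    rw [h1, enorm_mul]
    congr 1
    rw [← ofReal_norm, Complex.norm_real, Real.norm_of_nonneg hra.le]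
  rw [hrad, lintegral_scale hr0 (1 / 4) hPm]
  have h5 : ∀ s : ℂ, ‖P.eval (r • s)‖ₑ ^ (-(2 * c)) =
      ENNReal.ofReal (r * ‖a‖) ^ (-(2 * c)) * ‖Q.eval s‖ₑ ^ (-(2 * c)) := by
    intro s
    rw [hPQ, ENNReal.mul_rpow_of_ne_top ENNReal.ofReal_ne_top enorm_ne_top]
  simp only [h5]
  rw [lintegral_const_mul _ ((Q.continuous.measurable.enorm).pow_const _)]
  have h6 : ENNReal.ofReal (r ^ 2) = ENNReal.ofReal ((4 * κ) ^ 2) * ‖a‖ₑ ^ 2 := by
    rw [hr, mul_pow, ENNReal.ofReal_mul (by positivity), ← ofReal_norm a,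
      ENNReal.ofReal_pow (norm_nonneg a)]
  have h7 : ENNReal.ofReal (r * ‖a‖) ^ (-(2 * c)) =
      ENNReal.ofReal (4 * κ) ^ (-(2 * c)) * ‖a‖ₑ ^ (-(4 * c)) := by
    have h8 : ENNReal.ofReal (r * ‖a‖) = ENNReal.ofReal (4 * κ) * ‖a‖ₑ ^ 2 := by
      rw [hr, mul_assoc, ENNReal.ofReal_mul h4κ.le, ENNReal.ofReal_mul (norm_nonneg a),
        ofReal_norm, sq]
    rw [h8, ENNReal.mul_rpow_of_ne_top ENNReal.ofReal_ne_top
      (ENNReal.pow_ne_top enorm_ne_top), ← ENNReal.rpow_natCast, ← ENNReal.rpow_mul]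
    congr 2
    push_cast
    ring
  rw [h6, h7]
  calc ENNReal.ofReal ((4 * κ) ^ 2) * ‖a‖ₑ ^ 2 *
        (ENNReal.ofReal (4 * κ) ^ (-(2 * c)) * ‖a‖ₑ ^ (-(4 * c)) *
          ∫⁻ s in closedBall (0 : ℂ) (1 / 4), ‖Q.eval s‖ₑ ^ (-(2 * c)))
      ≤ ENNReal.ofReal ((4 * κ) ^ 2) * ‖a‖ₑ ^ 2 *
        (ENNReal.ofReal (4 * κ) ^ (-(2 * c)) * ‖a‖ₑ ^ (-(4 * c)) * B₀) := by gcongr
    _ = _ := by ring

end LT2

end MPb07157
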