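import Pool.Agent.Lib.MP_b07157_agLT.RA
import Pool.Agent.Lib.MP_b07157_agQ.Mult

/-!
# Averaging over discs of radius proportional to a derivative
-/

noncomputable section

namespace MPb07157

open MvPolynomial MeasureTheory Metric MPb07157M
open scoped ENNReal

namespace LT2

variable {n : ℕ}

/-- Polynomials are bounded on the unit ball. -/
theorem exists_bdd (P : MvPolynomial (Fin n) ℂ) :
    ∃ M : ℝ, 0 < M ∧ ∀ x : Fin n → ℂ, ‖x‖ ≤ 1 → ‖eval x P‖ ≤ M := by
  induction P using MvPolynomial.induction_on with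
  | C a => exact ⟨‖a‖ + 1, by positivity, fun x _ => by rw [eval_C]; linarith⟩
  | add p q hp hq =>
    obtain ⟨M, hM, h1⟩ := hp
    obtain ⟨M', hM', h2⟩ := hq
    exact ⟨M + M', by positivity, fun x hx => by
      rw [map_add]
      exact (norm_add_le _ _).trans (add_le_add (h1 x hx) (h2 x hx))⟩
  | mul_X p i hp =>
    obtain ⟨M, hM, h1⟩ := hp
    refine ⟨M, hM, fun x hx => ?_⟩
    rw [map_mul, eval_X, norm_mul]
    calc ‖eval x p‖ * ‖x i‖ ≤ M * 1 :=
          mul_le_mul (h1 x hx) ((norm_le_pi_norm x i).trans hx) (norm_nonneg _) hM.le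
      _ = M := mul_one M

/-- Polynomials are Lipschitz on the unit ball. -/
theorem exists_lip (P : MvPolynomial (Fin n) ℂ) :
    ∃ M : ℝ, 0 < M ∧ ∀ x y : Fin n → ℂ, ‖x‖ ≤ 1 → ‖y‖ ≤ 1 →
      ‖eval x P - eval y P‖ ≤ M * ‖x - y‖ := by
  induction P using MvPolynomial.induction_on with
  | C a => exact ⟨1, one_pos, fun x y _ _ => by rw [eval_C, eval_C, sub_self, norm_zero]; positivity⟩
  | add p q hp hq =>
    obtain ⟨M, hM, h1⟩ := hp
    obtain ⟨M', hM', h2⟩ := hq
    refine ⟨M + M', by positivity, fun x y hx hy => ?_⟩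
    rw [map_add, map_add, add_sub_add_comm, add_mul]
    exact (norm_add_le _ _).trans (add_le_add (h1 x y hx hy) (h2 x y hx hy))
  | mul_X p i hp =>
    obtain ⟨M, hM, h1⟩ := hp
    obtain ⟨M', hM', h2⟩ := exists_bdd p
    refine ⟨M + M', by positivity, fun x y hx hy => ?_⟩
    rw [map_mul, map_mul, eval_X, eval_X]
    have e1 : eval x p * x i - eval y p * y i =
        (eval x p - eval y p) * x i + eval y p * (x i - y i) := by ring
    rw [e1]
    refine (norm_add_le _ _).trans ?_
    rw [norm_mul, norm_mul, add_mul]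
    refine add_le_add ?_ ?_
    · calc ‖eval x p - eval y p‖ * ‖x i‖ ≤ (M * ‖x - y‖) * 1 :=
            mul_le_mul (h1 x y hx hy) ((norm_le_pi_norm x i).trans hx) (norm_nonneg _)
              (by positivity)
        _ = M * ‖x - y‖ := mul_one _
    · exact mul_le_mul (h2 y hy) (norm_le_pi_norm (x - y) i) (norm_nonneg _) hM'.le

/-- The first coefficient on the lines parallel to the `i`-th axis. -/
theorem coeff_one_lnMv (F : MvPolynomial (Fin n) ℂ) (i : Fin n) (x : Fin n → ℂ) :
    ((lnMv F (Pi.single i 1)).map (eval x)).coeff 1 = eval x (pderiv i F) := by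
  unfold lnMv
  induction F using MvPolynomial.induction_on with
  | C a =>
    rw [aeval_C, pderiv_C, map_zero, Polynomial.algebraMap_apply, MvPolynomial.algebraMap_eq,
      Polynomial.map_C, Polynomial.coeff_C_succ]
  | add p q hp hq => simp only [map_add, Polynomial.map_add, Polynomial.coeff_add, hp, hq]
  | mul_X p l hp =>
    have h0 : ((aeval (fun l => Polynomial.C (X l : MvPolynomial (Fin n) ℂ) +
        Polynomial.C (C ((Pi.single i 1 : Fin n → ℂ) l)) * Polynomial.X) p :
          Polynomial (MvPolynomial (Fin n) ℂ)).map (eval x)).coeff 0 = eval x p := by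
      have h1 := eval_lnMv p (Pi.single i 1) x 0
      rw [zero_smul, add_zero, ← Polynomial.coeff_zero_eq_eval_zero] at h1
      exact h1
    rw [map_mul, Polynomial.map_mul, aeval_X, Derivation.leibniz, smul_eq_mul, smul_eq_mul,
      map_add, map_mul, map_mul, eval_X, ← hp]
    simp only [Polynomial.map_add, Polynomial.map_mul, Polynomial.map_C, Polynomial.map_X,
      eval_X, eval_C, mul_add]
    rw [Polynomial.coeff_add, Polynomial.coeff_mul_C, ← mul_assoc, Polynomial.coeff_mul_X,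
      Polynomial.coeff_mul_C, h0]
    by_cases h : l = i
    · subst h
      rw [Pi.single_eq_same, pderiv_X_self, map_one]
      ring
    · rw [Pi.single_eq_of_ne h, pderiv_X_of_ne h, map_zero]
      ring

/-- The estimate for the restriction of `F` to discs parallel to the `i`-th axis. -/
theorem exists_disc_line (F : MvPolynomial (Fin n) ℂ) (i : Fin n) {c : ℝ} (hc0 : 0 < c)
    (hc1 : c < 1) :
    ∃ B : ℝ≥0∞, B < ∞ ∧ ∃ κ : ℝ, 0 < κ ∧ ∀ x : Fin n → ℂ, ‖x‖ ≤ 1 → eval x (pderiv i F) ≠ 0 →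
      ∫⁻ t in closedBall (0 : ℂ) (κ * ‖eval x (pderiv i F)‖),
        ‖eval (x + t • (Pi.single i 1 : Fin n → ℂ)) F‖ₑ ^ (-(2 * c)) ≤
        B * (‖eval x (pderiv i F)‖ₑ ^ 2 * ‖eval x (pderiv i F)‖ₑ ^ (-(4 * c))) := by
  set L := lnMv F (Pi.single i 1) with hL
  obtain ⟨M, hM, hMb⟩ : ∃ M : ℝ, 0 < M ∧ ∀ x : Fin n → ℂ, ‖x‖ ≤ 1 → ∀ k,
      ‖eval x (L.coeff k)‖ ≤ M := by
    choose M hM hMb using fun k => exists_bdd (L.coeff k)
    refine ⟨∑ k ∈ Finset.range (L.natDegree + 1), M k,
      Finset.sum_pos (fun k _ => hM k) ⟨0, Finset.mem_range.2 (Nat.succ_pos _)⟩,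
      fun x hx k => ?_⟩
    by_cases hk : k ∈ Finset.range (L.natDegree + 1)
    · exact (hMb k x hx).trans (Finset.single_le_sum (f := M) (fun k _ => (hM k).le) hk)
    · rw [Finset.mem_range, not_lt] at hk
      rw [Polynomial.coeff_eq_zero_of_natDegree_lt (by omega), map_zero, norm_zero]
      exact Finset.sum_nonneg fun k _ => (hM k).le
  obtain ⟨B, hB, κ, hκ, h⟩ := exists_disc L.natDegree hc0 hc1 hM
  refine ⟨B, hB, κ, hκ, fun x hx hx0 => ?_⟩
  have h1 := h (L.map (eval x)) Polynomial.natDegree_map_le (fun k => by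
    rw [Polynomial.coeff_map]
    exact hMb x hx k) (by rw [coeff_one_lnMv]; exact hx0)
  rw [coeff_one_lnMv] at h1
  simp only [hL, eval_lnMv] at h1
  exact h1

end LT2

end MPb07157
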