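import Pool.Agent.Lib.MP_b07157_agLT.RB

/-!
# Averaging over discs of radius proportional to a derivative: the estimate
-/

noncomputable section

namespace MPb07157

open MvPolynomial MeasureTheory Metric MPb07157M
open scoped ENNReal

namespace LT2

variable {n : ℕ}

/-- The kernel. -/
def ker (a : (Fin n → ℂ) → ℂ) (κ ρ : ℝ) (x : Fin n → ℂ) (t : ℂ) : ℝ≥0∞ :=
  Set.indicator {z : (Fin n → ℂ) × ℂ | z.1 ∈ ball (0 : Fin n → ℂ) ρ ∧ ‖z.2‖ ≤ κ * ‖a z.1‖ ∧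
    a z.1 ≠ 0} (fun z => (‖a z.1‖ₑ ^ 2)⁻¹) (x, t)

theorem measurable_ker {a : (Fin n → ℂ) → ℂ} (ha : Continuous a) (κ ρ : ℝ) :
    Measurable (fun z : (Fin n → ℂ) × ℂ => ker a κ ρ z.1 z.2) := by
  have h1 : Measurable (fun z : (Fin n → ℂ) × ℂ => (‖a z.1‖ₑ ^ 2)⁻¹) :=
    (((ha.measurable.comp measurable_fst).enorm).pow_const 2).inv
  refine h1.indicator ?_
  refine (measurableSet_ball.preimage measurable_fst).inter (MeasurableSet.inter ?_ ?_)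
  · exact measurableSet_le measurable_snd.norm
      (((ha.measurable.comp measurable_fst).norm).const_mul κ)
  · exact (measurableSet_singleton (0 : ℂ)).compl.preimage (ha.measurable.comp measurable_fst)

/-- The estimate for the kernel from above. -/
theorem ker_upper {a a' : (Fin n → ℂ) → ℂ} {G : (Fin n → ℂ) → ℝ≥0∞} {e : Fin n → ℂ} (he : ‖e‖ ≤ 1)
    (hG : Measurable G) {B : ℝ≥0∞} {κ κ₀ ρ c Λ : ℝ} (hκκ : κ ≤ κ₀) (hρ1 : ρ ≤ 1)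
    (hc0 : 0 < c)
    (hdisc : ∀ x : Fin n → ℂ, ‖x‖ ≤ 1 → a x ≠ 0 →
      ∫⁻ t in closedBall (0 : ℂ) (κ₀ * ‖a x‖), G (x + t • e) ≤
        B * (‖a x‖ₑ ^ 2 * ‖a x‖ₑ ^ (-(4 * c))))
    (hΛ : ∀ x y : Fin n → ℂ, ‖x‖ ≤ 1 → ‖y‖ ≤ 1 → ‖a x - a y‖ ≤ Λ * ‖x - y‖ ∧
      ‖a' x - a' y‖ ≤ Λ * ‖x - y‖) (hΛ0 : 0 < Λ) (hκΛ : κ * Λ ≤ 1 / 4) {S : Set (Fin n → ℂ)}
    (hS : ∀ x ∈ S, ‖x‖ ≤ 1 ∧ ‖a' x‖ ≤ ‖a x‖) (x : Fin n → ℂ) :
    ∫⁻ t, ker a κ ρ x t * S.indicator G (x + t • e) ≤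
      B * 2 ^ (2 * c) * (ball (0 : Fin n → ℂ) ρ).indicator
        (fun x => ‖a x‖ₑ ^ (-(2 * c)) * ‖a' x‖ₑ ^ (-(2 * c))) x := by
  by_cases hx : x ∈ ball (0 : Fin n → ℂ) ρ ∧ a x ≠ 0 ∧ ∃ t : ℂ, ‖t‖ ≤ κ * ‖a x‖ ∧ x + t • e ∈ S
  swap
  · have h0 : ∀ t : ℂ, ker a κ ρ x t * S.indicator G (x + t • e) = 0 := by
      intro t
      by_cases h1 : (x, t) ∈ {z : (Fin n → ℂ) × ℂ | z.1 ∈ ball (0 : Fin n → ℂ) ρ ∧
          ‖z.2‖ ≤ κ * ‖a z.1‖ ∧ a z.1 ≠ 0}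
      · rw [Set.indicator_of_notMem (s := S), mul_zero]
        intro h2
        exact hx ⟨h1.1, h1.2.2, t, h1.2.1, h2⟩
      · unfold ker
        rw [Set.indicator_of_notMem h1, zero_mul]
    simp only [h0]
    rw [lintegral_zero]
    exact bot_le
  obtain ⟨hxρ, hax, t₀, ht₀, hxS⟩ := hx
  have hx1 : ‖x‖ ≤ 1 := by
    rw [mem_ball_zero_iff] at hxρ
    linarith
  have hax0 : 0 < ‖a x‖ := norm_pos_iff.2 hax
  have hkey : ‖a' x‖ ≤ 2 * ‖a x‖ := by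
    obtain ⟨h1, h2⟩ := hS _ hxS
    obtain ⟨h3, h4⟩ := hΛ x (x + t₀ • e) hx1 h1
    have h5 : ‖x - (x + t₀ • e)‖ ≤ κ * ‖a x‖ := by
      rw [sub_add_cancel_left, norm_neg, norm_smul]
      calc ‖t₀‖ * ‖e‖ ≤ ‖t₀‖ * 1 := mul_le_mul_of_nonneg_left he (norm_nonneg _)
        _ ≤ κ * ‖a x‖ := by rw [mul_one]; exact ht₀
    have h6 : Λ * ‖x - (x + t₀ • e)‖ ≤ 1 / 4 * ‖a x‖ := by
      calc Λ * ‖x - (x + t₀ • e)‖ ≤ Λ * (κ * ‖a x‖) := mul_le_mul_of_nonneg_left h5 hΛ0.le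
        _ = (κ * Λ) * ‖a x‖ := by ring
        _ ≤ 1 / 4 * ‖a x‖ := mul_le_mul_of_nonneg_right hκΛ hax0.le
    have h7 : ‖a' x‖ ≤ ‖a' (x + t₀ • e)‖ + ‖a' x - a' (x + t₀ • e)‖ := by
      have := norm_add_le (a' (x + t₀ • e)) (a' x - a' (x + t₀ • e))
      rwa [add_sub_cancel] at this
    have h8 : ‖a (x + t₀ • e)‖ ≤ ‖a x‖ + ‖a x - a (x + t₀ • e)‖ := by
      have := norm_sub_le (a x) (a x - a (x + t₀ • e))
      rwa [sub_sub_cancel] at this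
    linarith
  rw [Set.indicator_of_mem hxρ]
  have hfin : (‖a x‖ₑ ^ 2 : ℝ≥0∞) ≠ ∞ := ENNReal.pow_ne_top enorm_ne_top
  have hne : (‖a x‖ₑ ^ 2 : ℝ≥0∞) ≠ 0 := pow_ne_zero _ (enorm_ne_zero.2 hax)
  have hle : ∫⁻ t, ker a κ ρ x t * S.indicator G (x + t • e) ≤
      (‖a x‖ₑ ^ 2)⁻¹ * ∫⁻ t in closedBall (0 : ℂ) (κ₀ * ‖a x‖), G (x + t • e) := by
    have hm : Measurable (fun t : ℂ => G (x + t • e)) :=
      hG.comp (measurable_const.add (measurable_id.smul_const e))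
    rw [← lintegral_indicator measurableSet_closedBall, ← lintegral_const_mul _
      (hm.indicator measurableSet_closedBall)]
    refine lintegral_mono fun t => ?_
    beta_reduce
    by_cases ht : (x, t) ∈ {z : (Fin n → ℂ) × ℂ | z.1 ∈ ball (0 : Fin n → ℂ) ρ ∧
        ‖z.2‖ ≤ κ * ‖a z.1‖ ∧ a z.1 ≠ 0}
    · have h1 : ker a κ ρ x t = (‖a x‖ₑ ^ 2)⁻¹ := by
        unfold ker
        rw [Set.indicator_of_mem ht]
      have h2 : t ∈ closedBall (0 : ℂ) (κ₀ * ‖a x‖) := by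
        rw [mem_closedBall_zero_iff]
        exact ht.2.1.trans (mul_le_mul_of_nonneg_right hκκ (norm_nonneg _))
      rw [h1, Set.indicator_of_mem h2]
      exact mul_le_mul_right (Set.indicator_le_self _ _ _) _
    · have h1 : ker a κ ρ x t = 0 := by
        unfold ker
        rw [Set.indicator_of_notMem ht]
      rw [h1, zero_mul]
      exact bot_le
  refine hle.trans ((mul_le_mul_right (hdisc x hx1 hax) _).trans ?_)
  have h1 : (‖a x‖ₑ ^ 2)⁻¹ * (B * (‖a x‖ₑ ^ 2 * ‖a x‖ₑ ^ (-(4 * c)))) =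
      B * ‖a x‖ₑ ^ (-(4 * c)) := by
    calc (‖a x‖ₑ ^ 2)⁻¹ * (B * (‖a x‖ₑ ^ 2 * ‖a x‖ₑ ^ (-(4 * c)))) =
        ((‖a x‖ₑ ^ 2)⁻¹ * ‖a x‖ₑ ^ 2) * (B * ‖a x‖ₑ ^ (-(4 * c))) := by ring
      _ = B * ‖a x‖ₑ ^ (-(4 * c)) := by rw [ENNReal.inv_mul_cancel hne hfin, one_mul]
  have h2 : ‖a x‖ₑ ^ (-(4 * c)) = ‖a x‖ₑ ^ (-(2 * c)) * ‖a x‖ₑ ^ (-(2 * c)) := by
    rw [← ENNReal.rpow_add _ _ (enorm_ne_zero.2 hax) enorm_ne_top]
    congr 1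
    ring
  have h3 : ‖a x‖ₑ ^ (-(2 * c)) ≤ 2 ^ (2 * c) * ‖a' x‖ₑ ^ (-(2 * c)) := by
    have h4 : ‖a' x‖ₑ ≤ 2 * ‖a x‖ₑ := by
      rw [← ofReal_norm, ← ofReal_norm, ← ENNReal.ofReal_ofNat, ← ENNReal.ofReal_mul (by norm_num)]
      exact ENNReal.ofReal_le_ofReal hkey
    have h5 := rpow_neg_le h4 (a := 2 * c) (by positivity)
    rw [ENNReal.mul_rpow_of_ne_top (by simp) enorm_ne_top] at h5
    calc ‖a x‖ₑ ^ (-(2 * c)) = (2 ^ (2 * c) * 2 ^ (-(2 * c))) * ‖a x‖ₑ ^ (-(2 * c)) := by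
          rw [← ENNReal.rpow_add _ _ (by simp) (by simp), add_neg_cancel, ENNReal.rpow_zero,
            one_mul]
      _ = 2 ^ (2 * c) * (2 ^ (-(2 * c)) * ‖a x‖ₑ ^ (-(2 * c))) := by rw [mul_assoc]
      _ ≤ 2 ^ (2 * c) * ‖a' x‖ₑ ^ (-(2 * c)) := mul_le_mul_right h5 _
  rw [h1, h2]
  calc B * (‖a x‖ₑ ^ (-(2 * c)) * ‖a x‖ₑ ^ (-(2 * c))) ≤
        B * (‖a x‖ₑ ^ (-(2 * c)) * (2 ^ (2 * c) * ‖a' x‖ₑ ^ (-(2 * c)))) := by gcongr
    _ = _ := by ring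

/-- The estimate for the kernel from below. -/
theorem ker_lower {a a' : (Fin n → ℂ) → ℂ} {e : Fin n → ℂ} (he : ‖e‖ ≤ 1)
    {κ ρ Λ : ℝ} (hκ : 0 < κ) (hρ1 : ρ ≤ 1)
    (hΛ : ∀ x y : Fin n → ℂ, ‖x‖ ≤ 1 → ‖y‖ ≤ 1 → ‖a x - a y‖ ≤ Λ * ‖x - y‖ ∧
      ‖a' x - a' y‖ ≤ Λ * ‖x - y‖) (hΛ0 : 0 < Λ) (hκΛ : κ * Λ ≤ 1 / 4) {x : Fin n → ℂ}
    (hx : ‖x‖ < ρ / 2) (hax : a x ≠ 0) (hκM : κ * ‖a x‖ ≤ ρ / 2) :
    ENNReal.ofReal (κ / 2) ^ 2 * NNReal.pi * 4⁻¹ ≤ ∫⁻ t, ker a κ ρ (x - t • e) t := by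
  have hax0 : 0 < ‖a x‖ := norm_pos_iff.2 hax
  have hfin : (‖a x‖ₑ ^ 2 : ℝ≥0∞) ≠ ∞ := ENNReal.pow_ne_top enorm_ne_top
  have hne : (‖a x‖ₑ ^ 2 : ℝ≥0∞) ≠ 0 := pow_ne_zero _ (enorm_ne_zero.2 hax)
  have hpt : ∀ t : ℂ, (closedBall (0 : ℂ) (κ / 2 * ‖a x‖)).indicator
      (fun _ => (4 * ‖a x‖ₑ ^ 2)⁻¹) t ≤ ker a κ ρ (x - t • e) t := by
    intro t
    by_cases ht : t ∈ closedBall (0 : ℂ) (κ / 2 * ‖a x‖)
    swap
    · rw [Set.indicator_of_notMem ht]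
      exact bot_le
    rw [Set.indicator_of_mem ht]
    rw [mem_closedBall_zero_iff] at ht
    have h1 : ‖t • e‖ ≤ κ / 2 * ‖a x‖ := by
      rw [norm_smul]
      calc ‖t‖ * ‖e‖ ≤ ‖t‖ * 1 := mul_le_mul_of_nonneg_left he (norm_nonneg _)
        _ ≤ κ / 2 * ‖a x‖ := by rw [mul_one]; exact ht
    have h2 : ‖x - t • e‖ < ρ := by
      have h3 := norm_sub_le x (t • e)
      have h4 : κ / 2 * ‖a x‖ = κ * ‖a x‖ / 2 := by ring
      have h5 : 0 < κ * ‖a x‖ := mul_pos hκ hax0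
      linarith
    obtain ⟨h3, -⟩ := hΛ x (x - t • e) (by linarith) (by linarith)
    rw [sub_sub_cancel] at h3
    have h4 : Λ * ‖t • e‖ ≤ 1 / 4 * ‖a x‖ := by
      calc Λ * ‖t • e‖ ≤ Λ * (κ / 2 * ‖a x‖) := mul_le_mul_of_nonneg_left h1 hΛ0.le
        _ = (κ * Λ) * (‖a x‖ / 2) := by ring
        _ ≤ 1 / 4 * (‖a x‖ / 2) := mul_le_mul_of_nonneg_right hκΛ (by positivity)
        _ ≤ 1 / 4 * ‖a x‖ := by linarith
    have h5 : ‖a (x - t • e)‖ ≤ ‖a x‖ + ‖a x - a (x - t • e)‖ := by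
      have := norm_sub_le (a x) (a x - a (x - t • e))
      rwa [sub_sub_cancel] at this
    have h6 : ‖a x‖ ≤ ‖a (x - t • e)‖ + ‖a x - a (x - t • e)‖ := by
      have := norm_add_le (a (x - t • e)) (a x - a (x - t • e))
      rwa [add_sub_cancel] at this
    have h7 : (x - t • e, t) ∈ {z : (Fin n → ℂ) × ℂ | z.1 ∈ ball (0 : Fin n → ℂ) ρ ∧
        ‖z.2‖ ≤ κ * ‖a z.1‖ ∧ a z.1 ≠ 0} := by
      refine ⟨by rw [mem_ball_zero_iff]; exact h2, ?_, ?_⟩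
      · show ‖t‖ ≤ κ * ‖a (x - t • e)‖
        refine ht.trans ?_
        rw [div_mul_eq_mul_div, mul_div_assoc]
        refine mul_le_mul_of_nonneg_left ?_ hκ.le
        linarith
      · show a (x - t • e) ≠ 0
        rw [← norm_pos_iff]
        linarith
    unfold ker
    rw [Set.indicator_of_mem h7]
    refine ENNReal.inv_le_inv.2 ?_
    have h8 : ‖a (x - t • e)‖ₑ ≤ 2 * ‖a x‖ₑ := by
      rw [← ofReal_norm, ← ofReal_norm, ← ENNReal.ofReal_ofNat, ← ENNReal.ofReal_mul (by norm_num)]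
      exact ENNReal.ofReal_le_ofReal (by linarith)
    calc ‖a (x - t • e)‖ₑ ^ 2 ≤ (2 * ‖a x‖ₑ) ^ 2 := by gcongr
      _ = 4 * ‖a x‖ₑ ^ 2 := by ring
  refine le_trans (le_of_eq ?_) (lintegral_mono hpt)
  rw [lintegral_indicator measurableSet_closedBall, setLIntegral_const, Complex.volume_closedBall,
    ENNReal.ofReal_mul (by positivity), ofReal_norm,
    ENNReal.mul_inv (Or.inl (by norm_num)) (Or.inl (by norm_num)), mul_pow]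
  calc ENNReal.ofReal (κ / 2) ^ 2 * NNReal.pi * 4⁻¹ =
      ENNReal.ofReal (κ / 2) ^ 2 * NNReal.pi * 4⁻¹ * ((‖a x‖ₑ ^ 2)⁻¹ * ‖a x‖ₑ ^ 2) := by
        rw [ENNReal.inv_mul_cancel hne hfin, mul_one]
    _ = _ := by ring

theorem tonelli {K : (Fin n → ℂ) → ℂ → ℝ≥0∞}
    (hK : Measurable (fun z : (Fin n → ℂ) × ℂ => K z.1 z.2)) {H : (Fin n → ℂ) → ℝ≥0∞}
    (hH : Measurable H) (e : Fin n → ℂ) {c₀ : ℝ≥0∞}
    (h : ∀ x, H x ≠ 0 → c₀ ≤ ∫⁻ t, K (x - t • e) t) :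
    c₀ * ∫⁻ x, H x ≤ ∫⁻ x, ∫⁻ t, K x t * H (x + t • e) := by
  have hm1 : Measurable (fun z : (Fin n → ℂ) × ℂ => z.1 + z.2 • e) :=
    measurable_fst.add (measurable_snd.smul_const e)
  have hm1' : Measurable (fun z : (Fin n → ℂ) × ℂ => (z.1 - z.2 • e, z.2)) :=
    (measurable_fst.sub (measurable_snd.smul_const e)).prodMk measurable_snd
  have hm2 : Measurable (fun z : (Fin n → ℂ) × ℂ => K z.1 z.2 * H (z.1 + z.2 • e)) :=
    hK.mul (hH.comp hm1)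
  have hm3 : Measurable (fun z : (Fin n → ℂ) × ℂ => K (z.1 - z.2 • e) z.2) := hK.comp hm1'
  calc c₀ * ∫⁻ x, H x = ∫⁻ x, c₀ * H x := by rw [lintegral_const_mul _ hH]
    _ ≤ ∫⁻ x, (∫⁻ t, K (x - t • e) t) * H x := by
        refine lintegral_mono fun x => ?_
        beta_reduce
        by_cases hx : H x = 0
        · rw [hx, mul_zero, mul_zero]
        · exact mul_le_mul_left (h x hx) _
    _ = ∫⁻ x, ∫⁻ t, K (x - t • e) t * H x := by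
        refine lintegral_congr fun x => ?_
        have hm4 : Measurable (fun t : ℂ => K (x - t • e) t) := hm3.comp measurable_prodMk_left
        rw [lintegral_mul_const _ hm4]
    _ = ∫⁻ t, ∫⁻ x, K (x - t • e) t * H x := by
        apply lintegral_lintegral_swap
        exact (hm3.mul (hH.comp measurable_fst)).aemeasurable
    _ = ∫⁻ t, ∫⁻ x, K x t * H (x + t • e) := by
        refine lintegral_congr fun t => ?_
        rw [← lintegral_add_right_eq_self (fun x => K (x - t • e) t * H x) (t • e)]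
        refine lintegral_congr fun x => ?_
        rw [add_sub_cancel_right]
    _ = ∫⁻ x, ∫⁻ t, K x t * H (x + t • e) := (lintegral_lintegral_swap hm2.aemeasurable).symm

/-- **Averaging.** -/
theorem averaging (F : MvPolynomial (Fin n) ℂ) (i i' : Fin n) {c : ℝ} (hc0 : 0 < c) (hc1 : c < 1)
    {ρ : ℝ} (hρ : 0 < ρ) (hρ1 : ρ ≤ 1) :
    ∃ C : ℝ≥0∞, C < ∞ ∧
      ∫⁻ x in ball (0 : Fin n → ℂ) (ρ / 2) ∩ {x | ‖eval x (pderiv i' F)‖ ≤ ‖eval x (pderiv i F)‖ ∧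
        eval x (pderiv i F) ≠ 0}, ‖eval x F‖ₑ ^ (-(2 * c)) ≤
      C * ∫⁻ x in ball (0 : Fin n → ℂ) ρ,
        ‖eval x (pderiv i F)‖ₑ ^ (-(2 * c)) * ‖eval x (pderiv i' F)‖ₑ ^ (-(2 * c)) := by
  obtain ⟨B, hB, κ₀, hκ₀, hdisc⟩ := exists_disc_line F i hc0 hc1
  obtain ⟨Λ₁, hΛ₁, hL₁⟩ := exists_lip (pderiv i F)
  obtain ⟨Λ₂, hΛ₂, hL₂⟩ := exists_lip (pderiv i' F)
  obtain ⟨Ma, hMa, hMb⟩ := exists_bdd (pderiv i F)
  set Λ := Λ₁ + Λ₂ with hΛdef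
  have hΛ0 : 0 < Λ := by positivity
  set a : (Fin n → ℂ) → ℂ := fun x => eval x (pderiv i F) with ha
  set a' : (Fin n → ℂ) → ℂ := fun x => eval x (pderiv i' F) with ha'
  have hac : Continuous a := MPb07157Q.continuous_evalC _
  have hac' : Continuous a' := MPb07157Q.continuous_evalC _
  have hΛ : ∀ x y : Fin n → ℂ, ‖x‖ ≤ 1 → ‖y‖ ≤ 1 → ‖a x - a y‖ ≤ Λ * ‖x - y‖ ∧
      ‖a' x - a' y‖ ≤ Λ * ‖x - y‖ := by
    intro x y hx hy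
    refine ⟨(hL₁ x y hx hy).trans ?_, (hL₂ x y hx hy).trans ?_⟩
    · exact mul_le_mul_of_nonneg_right (by linarith) (norm_nonneg _)
    · exact mul_le_mul_of_nonneg_right (by linarith) (norm_nonneg _)
  set κ := min κ₀ (min (1 / (4 * Λ)) (ρ / (2 * Ma))) with hκdef
  have hκ : 0 < κ := lt_min hκ₀ (lt_min (by positivity) (by positivity))
  have hκκ : κ ≤ κ₀ := min_le_left _ _
  have hκΛ : κ * Λ ≤ 1 / 4 := by
    have h1 : κ ≤ 1 / (4 * Λ) := (min_le_right _ _).trans (min_le_left _ _)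
    rw [le_div_iff₀ (by positivity)] at h1
    linarith
  have hκM : ∀ x : Fin n → ℂ, ‖x‖ ≤ 1 → κ * ‖a x‖ ≤ ρ / 2 := by
    intro x hx
    have h1 : κ ≤ ρ / (2 * Ma) := (min_le_right _ _).trans (min_le_right _ _)
    rw [le_div_iff₀ (by positivity)] at h1
    have h2 : κ * ‖a x‖ ≤ κ * Ma := mul_le_mul_of_nonneg_left (hMb x hx) hκ.le
    linarith
  set e : Fin n → ℂ := Pi.single i 1 with hedef
  have he : ‖e‖ ≤ 1 := by
    rw [hedef, Pi.norm_single, norm_one]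
  set G : (Fin n → ℂ) → ℝ≥0∞ := fun x => ‖eval x F‖ₑ ^ (-(2 * c)) with hG
  have hGm : Measurable G := (MPb07157Q.continuous_evalC F).measurable.enorm.pow_const _
  set S : Set (Fin n → ℂ) := ball (0 : Fin n → ℂ) (ρ / 2) ∩ {x | ‖a' x‖ ≤ ‖a x‖ ∧ a x ≠ 0}
    with hS
  have hSm : MeasurableSet S :=
    measurableSet_ball.inter ((measurableSet_le hac'.measurable.norm hac.measurable.norm).inter
      ((measurableSet_singleton (0 : ℂ)).compl.preimage hac.measurable))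
  have hSx : ∀ x ∈ S, ‖x‖ < ρ / 2 := fun x hx => by
    have := hx.1
    rwa [mem_ball_zero_iff] at this
  set c₀ : ℝ≥0∞ := ENNReal.ofReal (κ / 2) ^ 2 * NNReal.pi * 4⁻¹ with hc₀
  have hc₀0 : c₀ ≠ 0 := by
    rw [hc₀]
    refine mul_ne_zero (mul_ne_zero (pow_ne_zero _ ?_) ?_) (by simp)
    · exact (ENNReal.ofReal_pos.2 (by positivity)).ne'
    · exact_mod_cast NNReal.pi_ne_zero
  have hc₀t : c₀ ≠ ∞ := by
    rw [hc₀]
    exact ENNReal.mul_ne_top (ENNReal.mul_ne_top (ENNReal.pow_ne_top ENNReal.ofReal_ne_top)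
      ENNReal.coe_ne_top) (by simp)
  -- the double integral
  have hKm := measurable_ker hac κ ρ
  have hHm : Measurable (S.indicator G) := hGm.indicator hSm
  have hupper : ∫⁻ x, ∫⁻ t, ker a κ ρ x t * S.indicator G (x + t • e) ≤
      B * 2 ^ (2 * c) * ∫⁻ x in ball (0 : Fin n → ℂ) ρ,
        ‖a x‖ₑ ^ (-(2 * c)) * ‖a' x‖ₑ ^ (-(2 * c)) := by
    have hm : Measurable (fun x => ‖a x‖ₑ ^ (-(2 * c)) * ‖a' x‖ₑ ^ (-(2 * c))) :=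
      (hac.measurable.enorm.pow_const _).mul (hac'.measurable.enorm.pow_const _)
    rw [← lintegral_indicator measurableSet_ball, ← lintegral_const_mul _
      (hm.indicator measurableSet_ball)]
    refine lintegral_mono fun x => ?_
    exact ker_upper he hGm hκκ hρ1 hc0 hdisc hΛ hΛ0 hκΛ
      (fun x hx => ⟨by have := hSx x hx; linarith, hx.2.1⟩) x
  have hlower : c₀ * ∫⁻ x in S, G x ≤
      ∫⁻ x, ∫⁻ t, ker a κ ρ x t * S.indicator G (x + t • e) := by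
    rw [← lintegral_indicator hSm]
    refine tonelli hKm hHm e fun x hx => ?_
    have hx' : x ∈ S := by
      by_contra hcon
      exact hx (Set.indicator_of_notMem hcon _)
    have h1 := hSx x hx'
    exact ker_lower he hκ hρ1 hΛ hΛ0 hκΛ h1 hx'.2.2 (hκM x (by linarith))
  refine ⟨c₀⁻¹ * (B * 2 ^ (2 * c)), ?_, ?_⟩
  · refine ENNReal.mul_lt_top (ENNReal.inv_lt_top.2 (pos_iff_ne_zero.2 hc₀0))
      (ENNReal.mul_lt_top hB (ENNReal.rpow_lt_top_of_nonneg (by positivity) (by simp)))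
  · calc ∫⁻ x in S, G x = c₀⁻¹ * (c₀ * ∫⁻ x in S, G x) := by
          rw [← mul_assoc, ENNReal.inv_mul_cancel hc₀0 hc₀t, one_mul]
      _ ≤ c₀⁻¹ * (B * 2 ^ (2 * c) * ∫⁻ x in ball (0 : Fin n → ℂ) ρ,
            ‖a x‖ₑ ^ (-(2 * c)) * ‖a' x‖ₑ ^ (-(2 * c))) :=
          mul_le_mul_right (hlower.trans hupper) _
      _ = c₀⁻¹ * (B * 2 ^ (2 * c)) * ∫⁻ x in ball (0 : Fin n → ℂ) ρ,
            ‖a x‖ₑ ^ (-(2 * c)) * ‖a' x‖ₑ ^ (-(2 * c)) := (mul_assoc _ _ _).symm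

end LT2

end MPb07157
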