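import Pool.Agent.Lib.MP_b07157_agQ.L2a
import Pool.Agent.Lib.MP_b07157_agQ.MultC

/-!
# Integrability of `|a|^(-2c) |a'|^(-2c)` for two functions with independent differentials
-/

noncomputable section

namespace MPb07157

open MvPolynomial MeasureTheory Metric
open scoped ENNReal

namespace LT2

variable {n : ℕ}

/-- Tonelli for products. -/
private theorem lintegral_pi_prod {n : ℕ} (μ : Fin n → Measure ℂ) [∀ i, SigmaFinite (μ i)]
    (f : Fin n → ℂ → ℝ≥0∞) (hf : ∀ i, Measurable (f i)) :
    ∫⁻ x : Fin n → ℂ, ∏ i, f i (x i) ∂(Measure.pi μ) = ∏ i, ∫⁻ z, f i z ∂(μ i) := by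
  induction n with
  | zero => simp
  | succ n ih =>
    have hmp := (measurePreserving_piFinSuccAbove μ 0).symm
    rw [← hmp.lintegral_comp_emb (MeasurableEquiv.measurableEmbedding _)]
    simp_rw [MeasurableEquiv.piFinSuccAbove_symm_apply, Fin.insertNthEquiv,
      Fin.prod_univ_succ, Fin.insertNth_zero, Equiv.coe_fn_mk, Fin.cons_succ,
      Fin.zero_succAbove, cast_eq, Fin.cons_zero]
    have h1 : Measurable fun y : Fin n → ℂ => ∏ i : Fin n, f i.succ (y i) :=
      Finset.measurable_prod _ fun i _ => (hf i.succ).comp (measurable_pi_apply i)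
    rw [lintegral_prod_mul (hf 0).aemeasurable h1.aemeasurable,
      ih (fun i => μ i.succ) (fun i => f i.succ) fun i => hf i.succ]

/-- The integral of `|w_j|^(-2c) |w_j'|^(-2c)` over the unit ball (a product of discs). -/
private theorem lintegral_std {j j' : Fin n} (hj : j ≠ j') {c : ℝ} (hc0 : 0 < c) (hc1 : c < 1) :
    ∫⁻ w in ball (0 : Fin n → ℂ) 1, ‖w j‖ₑ ^ (-(2 * c)) * ‖w j'‖ₑ ^ (-(2 * c)) < ∞ := by
  classical
  set f : Fin n → ℂ → ℝ≥0∞ := fun l z =>
    if l = j then ‖z‖ₑ ^ (-(2 * c)) else if l = j' then ‖z‖ₑ ^ (-(2 * c)) else 1 with hf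
  have hfm : ∀ l, Measurable (f l) := by
    intro l
    have h1 : Measurable fun z : ℂ => ‖z‖ₑ ^ (-(2 * c)) := measurable_enorm.pow_const _
    by_cases h : l = j
    · simp only [hf, if_pos h]
      exact h1
    · by_cases h' : l = j'
      · simp only [hf, if_neg h, if_pos h']
        exact h1
      · simp only [hf, if_neg h, if_neg h']
        exact measurable_const
  have e1 : ∀ w : Fin n → ℂ, ‖w j‖ₑ ^ (-(2 * c)) * ‖w j'‖ₑ ^ (-(2 * c)) = ∏ l, f l (w l) := by
    intro w
    have h1 : ∀ l, f l (w l) = (if l = j then ‖w j‖ₑ ^ (-(2 * c)) else 1) *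
        (if l = j' then ‖w j'‖ₑ ^ (-(2 * c)) else 1) := by
      intro l
      by_cases h : l = j
      · subst h
        simp [hf, hj]
      · by_cases h' : l = j'
        · subst h'
          simp [hf, h]
        · simp [hf, h, h']
    rw [Finset.prod_congr rfl fun l _ => h1 l, Finset.prod_mul_distrib, Finset.prod_ite_eq',
      Finset.prod_ite_eq', if_pos (Finset.mem_univ _), if_pos (Finset.mem_univ _)]
  have e2 : ball (0 : Fin n → ℂ) 1 = Set.pi Set.univ fun _ => ball (0 : ℂ) 1 := by
    rw [ball_pi _ zero_lt_one]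
    rfl
  simp_rw [e1]
  rw [e2, volume_pi, Measure.restrict_pi_pi, lintegral_pi_prod _ _ hfm]
  refine ENNReal.prod_lt_top fun l _ => ?_
  have h1 := MPb07157M.lintegral_enorm_rpow (a := 2 * c) (by positivity) (by linarith)
  by_cases h : l = j
  · simp only [hf, if_pos h]
    exact h1
  · by_cases h' : l = j'
    · simp only [hf, if_neg h, if_pos h']
      exact h1
    · simp only [hf, if_neg h, if_neg h']
      rw [setLIntegral_const, one_mul]
      exact measure_ball_lt_top

private theorem contDiff_ev (P : MvPolynomial (Fin n) ℂ) :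
    ContDiff ℝ 1 fun x : Fin n → ℂ => eval x P := by
  induction P using MvPolynomial.induction_on with
  | C a =>
    simp only [eval_C]
    exact contDiff_const
  | add p q hp hq =>
    simp only [map_add]
    exact hp.add hq
  | mul_X p i hp =>
    simp only [map_mul, eval_X]
    exact hp.mul (contDiff_apply ℝ ℂ i)

/-- PROOF. `j ≠ j'` by `hm`. Let `Φ x = Function.update (Function.update x j (eval x A)) j' (eval x A')`
and `g w = ‖w j‖ₑ^(-2c) * ‖w j'‖ₑ^(-2c)`, so the integrand is `g (Φ x)`. The (real) derivative of `Φ`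
at the origin is injective (`v l = 0` for `l ≠ j, j'`, then the `2 × 2` system with the determinant
`hm`; `MPb07157Q.hasFDerivAt_evalC` of `agQ/L2a.lean` gives the complex derivatives, use
`.restrictScalars ℝ` and `hasStrictFDerivAt`/`contDiff`), so on a small ball `s = ball 0 ρ` the map
`Φ` is injective (inverse function theorem, `HasStrictFDerivAt.toOpenPartialHomeomorph` or
`exists_lipschitz...`) and `|det Φ'| ≥ J > 0` (continuity of `ContinuousLinearMap.det`). By
`lintegral_image_eq_lintegral_abs_det_fderiv_mul`: `J * ∫_s g(Φ x) ≤ ∫_(Φ '' s) g ≤ ∫_(ball 0 R) g`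
if `Φ '' s ⊆ ball 0 R`. The last integral is finite: `g` times the indicator of the ball (a product
of discs, `ball_pi`) is a product of functions of one variable, `‖z‖^(-2c)` on a disc being
integrable (`MPb07157M.lintegral_enorm_rpow` in `agQ/MultB.lean`, `2c < 2`, and scaling for radius
`R` or choose `ρ` so small that `Φ '' s ⊆ ball p 1` where `p = Φ 0`; if `eval 0 A ≠ 0` the factor is
bounded; WLOG use a large ball), `Integrable.fintype_prod` (Mathlib, Integral/Pi). -/
theorem lintegral_two (A A' : MvPolynomial (Fin n) ℂ) {j j' : Fin n}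
    (hm : eval 0 (pderiv j A) * eval 0 (pderiv j' A') -
      eval 0 (pderiv j' A) * eval 0 (pderiv j A') ≠ 0) (hA : eval 0 A = 0) (hA' : eval 0 A' = 0)
    {c : ℝ} (hc0 : 0 < c) (hc1 : c < 1) :
    ∃ ρ : ℝ, 0 < ρ ∧ ∫⁻ x in ball (0 : Fin n → ℂ) ρ,
      ‖eval x A‖ₑ ^ (-(2 * c)) * ‖eval x A'‖ₑ ^ (-(2 * c)) < ∞ := by
  classical
  have hj : j ≠ j' := by
    rintro rfl
    apply hm
    ring
  set Φ : (Fin n → ℂ) → (Fin n → ℂ) := fun x l =>
    if l = j then eval x A else if l = j' then eval x A' else x l with hΦ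
  have hΦj : ∀ x, Φ x j = eval x A := fun x => by simp [hΦ]
  have hΦj' : ∀ x, Φ x j' = eval x A' := fun x => by simp [hΦ, hj.symm]
  -- smoothness
  have hsm : ContDiff ℝ 1 Φ := by
    rw [contDiff_pi]
    intro l
    by_cases h : l = j
    · simp only [hΦ, if_pos h]
      exact contDiff_ev A
    · by_cases h' : l = j'
      · simp only [hΦ, if_neg h, if_pos h']
        exact contDiff_ev A'
      · simp only [hΦ, if_neg h, if_neg h']
        exact contDiff_apply ℝ ℂ l
  -- the derivative at the origin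
  obtain ⟨L, hL, hLv⟩ := MPb07157Q.hasFDerivAt_evalC A 0
  obtain ⟨L', hL', hLv'⟩ := MPb07157Q.hasFDerivAt_evalC A' 0
  set D : (Fin n → ℂ) →L[ℂ] (Fin n → ℂ) := ContinuousLinearMap.pi fun l =>
    if l = j then L else if l = j' then L' else ContinuousLinearMap.proj l with hD
  have hder : HasFDerivAt Φ D 0 := by
    rw [hasFDerivAt_pi']
    intro l
    have hDl : (ContinuousLinearMap.proj l).comp D =
        (if l = j then L else if l = j' then L' else ContinuousLinearMap.proj l) := by
      ext v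
      simp [hD]
    rw [hDl]
    by_cases h : l = j
    · simp only [hΦ, if_pos h]
      exact hL
    · by_cases h' : l = j'
      · simp only [hΦ, if_neg h, if_pos h']
        exact hL'
      · simp only [hΦ, if_neg h, if_neg h']
        exact hasFDerivAt_apply l _
  have hderR : HasFDerivAt Φ (D.restrictScalars ℝ) 0 := hder.restrictScalars ℝ
  have hinj : Function.Injective (D.restrictScalars ℝ).toLinearMap := by
    rw [injective_iff_map_eq_zero]
    intro v hv
    have hv' : ∀ l, D v l = 0 := fun l => congrFun (show D v = 0 from hv) l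
    have h0 : ∀ l, l ≠ j → l ≠ j' → v l = 0 := by
      intro l h h'
      have := hv' l
      simpa [hD, h, h'] using this
    have h1 : L v = 0 := by
      have := hv' j
      simpa [hD] using this
    have h2 : L' v = 0 := by
      have := hv' j'
      simpa [hD, hj.symm] using this
    rw [hLv, Finset.sum_eq_add j j' hj (fun l _ hl => by rw [h0 l hl.1 hl.2, mul_zero])
      (fun h => absurd (Finset.mem_univ _) h) (fun h => absurd (Finset.mem_univ _) h)] at h1
    rw [hLv', Finset.sum_eq_add j j' hj (fun l _ hl => by rw [h0 l hl.1 hl.2, mul_zero])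
      (fun h => absurd (Finset.mem_univ _) h) (fun h => absurd (Finset.mem_univ _) h)] at h2
    have h3 : (eval 0 (pderiv j A) * eval 0 (pderiv j' A') -
        eval 0 (pderiv j' A) * eval 0 (pderiv j A')) * v j = 0 := by
      linear_combination (eval 0 (pderiv j' A')) * h1 - (eval 0 (pderiv j' A)) * h2
    have h4 : (eval 0 (pderiv j A) * eval 0 (pderiv j' A') -
        eval 0 (pderiv j' A) * eval 0 (pderiv j A')) * v j' = 0 := by
      linear_combination (eval 0 (pderiv j A)) * h2 - (eval 0 (pderiv j A')) * h1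
    have h5 : v j = 0 := (mul_eq_zero.1 h3).resolve_left hm
    have h6 : v j' = 0 := (mul_eq_zero.1 h4).resolve_left hm
    funext l
    by_cases h : l = j
    · rw [h, h5]
      rfl
    · by_cases h' : l = j'
      · rw [h', h6]
        rfl
      · rw [h0 l h h']
        rfl
  set e : (Fin n → ℂ) ≃ₗ[ℝ] (Fin n → ℂ) :=
    LinearEquiv.ofInjectiveEndo (D.restrictScalars ℝ).toLinearMap hinj with he
  have hecoe : ((e.toContinuousLinearEquiv : (Fin n → ℂ) ≃L[ℝ] (Fin n → ℂ)) :
      (Fin n → ℂ) →L[ℝ] (Fin n → ℂ)) = D.restrictScalars ℝ := by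
    ext v
    rfl
  have hdet : (fderiv ℝ Φ 0).det ≠ 0 := by
    rw [hderR.fderiv]
    exact (LinearEquiv.isUnit_det' e).ne_zero
  -- local injectivity
  have hderE : HasFDerivAt Φ ((e.toContinuousLinearEquiv : (Fin n → ℂ) ≃L[ℝ] (Fin n → ℂ)) :
      (Fin n → ℂ) →L[ℝ] (Fin n → ℂ)) 0 := by
    rw [hecoe]
    exact hderR
  have hca : ContDiffAt ℝ 1 Φ 0 := hsm.contDiffAt
  set P := hca.toOpenPartialHomeomorph Φ hderE one_ne_zero with hP
  have hPcoe : (P : (Fin n → ℂ) → (Fin n → ℂ)) = Φ := rfl
  have hPs : P.source ∈ nhds (0 : Fin n → ℂ) :=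
    P.open_source.mem_nhds (hca.mem_toOpenPartialHomeomorph_source hderE one_ne_zero)
  have hPinj : Set.InjOn Φ P.source := P.injOn
  -- the determinant
  set J : ℝ := |(fderiv ℝ Φ 0).det| / 2 with hJ
  have hJ0 : 0 < J := by
    have := abs_pos.2 hdet
    positivity
  have hdetc : Continuous fun x => |(fderiv ℝ Φ x).det| :=
    (ContinuousLinearMap.continuous_det.comp (hsm.continuous_fderiv one_ne_zero)).abs
  have hJn : {x | J < |(fderiv ℝ Φ x).det|} ∈ nhds (0 : Fin n → ℂ) := by
    refine (isOpen_lt continuous_const hdetc).mem_nhds ?_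
    have := abs_pos.2 hdet
    show |(fderiv ℝ Φ 0).det| / 2 < |(fderiv ℝ Φ 0).det|
    linarith
  -- the image
  have hΦ0 : Φ 0 = 0 := by
    funext l
    by_cases h : l = j
    · rw [h, hΦj, hA]
      rfl
    · by_cases h' : l = j'
      · rw [h', hΦj', hA']
        rfl
      · simp [hΦ, h, h']
  have hBn : Φ ⁻¹' ball 0 1 ∈ nhds (0 : Fin n → ℂ) := by
    refine (isOpen_ball.preimage hsm.continuous).mem_nhds ?_
    rw [Set.mem_preimage, hΦ0]
    exact mem_ball_self one_pos
  obtain ⟨ρ, hρ, hball⟩ := Metric.mem_nhds_iff.1 (Filter.inter_mem (Filter.inter_mem hPs hJn) hBn)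
  refine ⟨ρ, hρ, ?_⟩
  set g : (Fin n → ℂ) → ℝ≥0∞ := fun w => ‖w j‖ₑ ^ (-(2 * c)) * ‖w j'‖ₑ ^ (-(2 * c)) with hg
  have hgΦ : ∀ x, ‖eval x A‖ₑ ^ (-(2 * c)) * ‖eval x A'‖ₑ ^ (-(2 * c)) = g (Φ x) := by
    intro x
    simp only [hg, hΦj, hΦj']
  simp_rw [hgΦ]
  have hcv := lintegral_image_eq_lintegral_abs_det_fderiv_mul (μ := volume)
    (s := ball (0 : Fin n → ℂ) ρ) (f := Φ) (f' := fun x => fderiv ℝ Φ x) measurableSet_ball
    (fun x _ => ((hsm.differentiable one_ne_zero).differentiableAt.hasFDerivAt).hasFDerivWithinAt)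
    (hPinj.mono fun x hx => (hball hx).1.1) g
  have hle : ENNReal.ofReal J * ∫⁻ x in ball (0 : Fin n → ℂ) ρ, g (Φ x) ≤
      ∫⁻ w in ball (0 : Fin n → ℂ) 1, g w := by
    calc ENNReal.ofReal J * ∫⁻ x in ball (0 : Fin n → ℂ) ρ, g (Φ x)
        = ∫⁻ x in ball (0 : Fin n → ℂ) ρ, ENNReal.ofReal J * g (Φ x) := by
          rw [lintegral_const_mul' _ _ ENNReal.ofReal_ne_top]
      _ ≤ ∫⁻ x in ball (0 : Fin n → ℂ) ρ,
            ENNReal.ofReal |(fderiv ℝ Φ x).det| * g (Φ x) := by
          refine setLIntegral_mono' measurableSet_ball fun x hx => ?_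
          gcongr
          exact (hball hx).1.2.le
      _ = ∫⁻ w in Φ '' ball (0 : Fin n → ℂ) ρ, g w := hcv.symm
      _ ≤ ∫⁻ w in ball (0 : Fin n → ℂ) 1, g w := by
          refine lintegral_mono_set ?_
          rintro _ ⟨x, hx, rfl⟩
          exact (hball hx).2
  have hfin := lintegral_std (n := n) hj hc0 hc1
  by_contra hcon
  rw [not_lt, top_le_iff] at hcon
  rw [hcon, ENNReal.mul_top (ENNReal.ofReal_pos.2 hJ0).ne'] at hle
  exact absurd hfin (not_lt.2 hle)

end LT2

end MPb07157
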