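import Pool.Agent.Lib.MP_b07157_agLT.Defs
import Pool.Agent.Lib.MP_b07157_agLT.Lct
import Pool.Agent.Lib.MP_b07157_agLT.RC
import Pool.Agent.Lib.MP_b07157_agLT.RD

/-!
# Local integrability of `|f|^(-2c)`, `c < 1`, at the points where the Hessian has rank at least two
-/

noncomputable section

namespace MPb07157

open MvPolynomial MeasureTheory Metric Module MPb07157M
open scoped ENNReal

namespace LT2

variable {n : ℕ}

/-- **Local integrability** for `c < 1`. -/
theorem local_integrable2 {F : MvPolynomial (Fin n) ℂ} (hF : ∀ i, eval 0 (pderiv i F) = 0)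
    {i i' j j' : Fin n}
    (hm : eval 0 (pderiv j (pderiv i F)) * eval 0 (pderiv j' (pderiv i' F)) -
      eval 0 (pderiv j' (pderiv i F)) * eval 0 (pderiv j (pderiv i' F)) ≠ 0)
    {c : ℝ} (hc0 : 0 < c) (hc1 : c < 1) :
    ∃ r : ℝ, 0 < r ∧ ∫⁻ x in ball (0 : Fin n → ℂ) r, ‖eval x F‖ₑ ^ (-(2 * c)) < ∞ := by
  obtain ⟨ρ₀, hρ₀, hint⟩ := lintegral_two (pderiv i F) (pderiv i' F) hm (hF i) (hF i') hc0 hc1
  set ρ := min ρ₀ 1 with hρdef
  have hρ : 0 < ρ := lt_min hρ₀ one_pos
  have hρ1 : ρ ≤ 1 := min_le_right _ _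
  have hint' : ∫⁻ x in ball (0 : Fin n → ℂ) ρ,
      ‖eval x (pderiv i F)‖ₑ ^ (-(2 * c)) * ‖eval x (pderiv i' F)‖ₑ ^ (-(2 * c)) < ∞ :=
    (lintegral_mono_set (ball_subset_ball (min_le_left _ _))).trans_lt hint
  have hint'' : ∫⁻ x in ball (0 : Fin n → ℂ) ρ,
      ‖eval x (pderiv i' F)‖ₑ ^ (-(2 * c)) * ‖eval x (pderiv i F)‖ₑ ^ (-(2 * c)) < ∞ := by
    refine lt_of_le_of_lt (le_of_eq ?_) hint'
    exact lintegral_congr fun x => mul_comm _ _
  obtain ⟨C₁, hC₁, h1⟩ := averaging F i i' hc0 hc1 hρ hρ1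
  obtain ⟨C₂, hC₂, h2⟩ := averaging F i' i hc0 hc1 hρ hρ1
  refine ⟨ρ / 2, by positivity, ?_⟩
  set S₁ : Set (Fin n → ℂ) := ball (0 : Fin n → ℂ) (ρ / 2) ∩
    {x | ‖eval x (pderiv i' F)‖ ≤ ‖eval x (pderiv i F)‖ ∧ eval x (pderiv i F) ≠ 0} with hS₁
  set S₂ : Set (Fin n → ℂ) := ball (0 : Fin n → ℂ) (ρ / 2) ∩
    {x | ‖eval x (pderiv i F)‖ ≤ ‖eval x (pderiv i' F)‖ ∧ eval x (pderiv i' F) ≠ 0} with hS₂
  set Z : Set (Fin n → ℂ) := ball (0 : Fin n → ℂ) (ρ / 2) ∩
    {x | eval x (pderiv i F) = 0 ∧ eval x (pderiv i' F) = 0} with hZ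
  have hcov : ball (0 : Fin n → ℂ) (ρ / 2) ⊆ (S₁ ∪ S₂) ∪ Z := by
    intro x hx
    by_cases ha : eval x (pderiv i F) = 0
    · by_cases ha' : eval x (pderiv i' F) = 0
      · exact Or.inr ⟨hx, ha, ha'⟩
      · exact Or.inl (Or.inr ⟨hx, by rw [ha, norm_zero]; exact norm_nonneg _, ha'⟩)
    · rcases le_total ‖eval x (pderiv i' F)‖ ‖eval x (pderiv i F)‖ with h | h
      · exact Or.inl (Or.inl ⟨hx, h, ha⟩)
      · refine Or.inl (Or.inr ⟨hx, h, ?_⟩)
        rw [← norm_pos_iff]
        exact lt_of_lt_of_le (norm_pos_iff.2 ha) h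
  have hmeas : Measurable (fun x : Fin n → ℂ =>
      ‖eval x (pderiv i F)‖ₑ ^ (-(2 * c)) * ‖eval x (pderiv i' F)‖ₑ ^ (-(2 * c))) :=
    ((MPb07157Q.continuous_evalC _).measurable.enorm.pow_const _).mul
      ((MPb07157Q.continuous_evalC _).measurable.enorm.pow_const _)
  have hZ0 : volume Z = 0 := by
    have h3 := ae_lt_top hmeas hint'.ne
    rw [ae_iff] at h3
    have h4 : Z ⊆ {x : Fin n → ℂ | ¬ ‖eval x (pderiv i F)‖ₑ ^ (-(2 * c)) *
        ‖eval x (pderiv i' F)‖ₑ ^ (-(2 * c)) < ∞} ∩ ball (0 : Fin n → ℂ) ρ := by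
      rintro x ⟨hx, hx1, hx2⟩
      refine ⟨?_, ball_subset_ball (by linarith) hx⟩
      show ¬ _ < _
      rw [hx1, hx2, enorm_zero, ENNReal.zero_rpow_of_neg (by linarith), ENNReal.top_mul_top]
      exact lt_irrefl _
    refine measure_mono_null h4 ?_
    rw [← Measure.restrict_apply' measurableSet_ball]
    exact h3
  refine (lintegral_mono_set hcov).trans_lt ?_
  refine (lintegral_union_le _ _ _).trans_lt (ENNReal.add_lt_top.2 ⟨?_, ?_⟩)
  · refine (lintegral_union_le _ _ _).trans_lt (ENNReal.add_lt_top.2 ⟨?_, ?_⟩)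
    · exact h1.trans_lt (ENNReal.mul_lt_top hC₁ hint')
    · exact h2.trans_lt (ENNReal.mul_lt_top hC₂ hint'')
  · rw [setLIntegral_measure_zero _ _ hZ0]
    exact ENNReal.zero_lt_top

/-- A matrix of rank at least two has a non-zero minor. -/
theorem exists_minor_two {A : Matrix (Fin n) (Fin n) ℂ} (h : 2 ≤ A.rank) :
    ∃ i i' j j', A i j * A i' j' - A i j' * A i' j ≠ 0 := by
  by_contra hcon
  push Not at hcon
  by_cases h0 : A = 0
  · rw [h0, Matrix.rank_zero] at h
    omega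
  obtain ⟨i₀, j₀, h1⟩ : ∃ i j, A i j ≠ 0 := by
    by_contra hc
    push Not at hc
    exact h0 (Matrix.ext hc)
  have h2 : A = Matrix.vecMulVec (fun i => A i j₀) (fun j => (A i₀ j₀)⁻¹ * A i₀ j) := by
    ext i j
    rw [Matrix.vecMulVec_apply]
    have h3 := hcon i i₀ j j₀
    field_simp
    linear_combination h3
  have h4 := Matrix.rank_vecMulVec_le (fun i => A i j₀) (fun j => (A i₀ j₀)⁻¹ * A i₀ j)
  rw [← h2] at h4
  omega

/-- **Integrability from the local integrability** at the points `p ≠ 0`. -/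
theorem integrable_of_local {f : MvPolynomial (Fin n) ℂ} {d : ℕ} (hd : 0 < d)
    (hh : f.IsHomogeneous d) {c : ℝ} (hc0 : 0 < c) (hc : c < n / d)
    (hloc : ∀ p : Fin n → ℂ, p ≠ 0 → ∃ r : ℝ, 0 < r ∧
      ∫⁻ x in ball (0 : Fin n → ℂ) r, ‖eval x (translate p f)‖ₑ ^ (-(2 * c)) < ∞) :
    IntegrableOn (fun x : Fin n → ℂ => ‖eval x f‖ ^ (-(2 * c))) (ball 0 1) := by
  have hd' : (0 : ℝ) < d := by exact_mod_cast hd
  have hn : 0 < n := by
    rcases Nat.eq_zero_or_pos n with h | h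
    · subst h
      rw [Nat.cast_zero, zero_div] at hc
      linarith
    · exact h
  have hn' : (0 : ℝ) < n := by exact_mod_cast hn
  have hcd : c * d < n := by rwa [lt_div_iff₀ hd'] at hc
  have : Nonempty (Fin n) := ⟨⟨0, hn⟩⟩
  have hmeas : Measurable (fun x : Fin n → ℂ => ‖eval x f‖ₑ ^ (-(2 * c))) :=
    (MPb07157Q.continuous_evalC f).measurable.enorm.pow_const _
  have hlt : ∫⁻ x in ball (0 : Fin n → ℂ) 1, ‖eval x f‖ₑ ^ (-(2 * c)) < ∞ := by
    apply lintegral_ball_lt_top volume hmeas (α := 2 * (c * d))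
    · have h1 : finrank ℝ (Fin n → ℂ) = 2 * n := by
        simp [Module.finrank_pi_fintype, Complex.finrank_real_complex, mul_comm]
      rw [h1]
      push_cast
      linarith
    · intro x
      have h1 : (2 : ℝ)⁻¹ • x = ((2 : ℂ)⁻¹) • x := by
        funext i
        simp
      rw [h1, eval_smul_of_isHomogeneous hh, enorm_mul,
        ENNReal.mul_rpow_of_ne_top enorm_ne_top enorm_ne_top]
      congr 1
      have h2 : ‖((2 : ℂ)⁻¹) ^ d‖ₑ = ENNReal.ofReal ((2 : ℝ) ^ (-(d : ℝ))) := by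
        rw [← ofReal_norm, norm_pow, norm_inv, Complex.norm_ofNat, Real.rpow_neg (by norm_num),
          Real.rpow_natCast, inv_pow]
      rw [h2, ENNReal.ofReal_rpow_of_pos (by positivity), ← Real.rpow_mul (by norm_num)]
      congr 2
      ring
    · have hK : IsCompact (closedBall (0 : Fin n → ℂ) 1 \ ball 0 (2 : ℝ)⁻¹) :=
        (isCompact_closedBall _ _).diff isOpen_ball
      refine lt_of_le_of_lt (lintegral_mono_set ?_) (integrable_compact (f := f) (c := c) hK ?_)
      · intro x hx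
        obtain ⟨h1, h2⟩ := hx
        rw [zero_add, pow_one] at h1
        rw [pow_zero] at h2
        refine ⟨?_, ?_⟩
        · rw [mem_closedBall_zero_iff]
          exact h2.le
        · rw [mem_ball_zero_iff, not_lt]
          exact h1
      · intro p hp
        have hp0 : p ≠ 0 := by
          rintro rfl
          exact hp.2 (mem_ball_self (by norm_num))
        exact hloc p hp0
  refine ⟨?_, ?_⟩
  · apply Measurable.aestronglyMeasurable
    exact (MPb07157Q.continuous_evalC f).norm.measurable.pow_const _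
  · refine lt_of_le_of_lt (lintegral_mono fun x => ?_) hlt
    rw [Real.enorm_of_nonneg (Real.rpow_nonneg (norm_nonneg _) _)]
    by_cases h0 : eval x f = 0
    · rw [h0, enorm_zero, ENNReal.zero_rpow_of_neg (by linarith)]
      exact le_top
    · rw [← ofReal_norm, ENNReal.ofReal_rpow_of_pos (norm_pos_iff.2 h0)]

end LT2

open LT2 in
/-- The condition `ConeRoot` from `RankRoot`. -/
theorem ConeRoot.of_rankRoot {n : ℕ} {f : MvPolynomial (Fin n) ℂ} {d : ℕ} (hd : 0 < d)
    (hh : f.IsHomogeneous d) (h : RankRoot f d) : ConeRoot f d := by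
  obtain ⟨hnd, h⟩ := h
  have hdR : (0 : ℝ) < d := by exact_mod_cast hd
  refine Or.inl (Or.inl fun c hc0 hc => integrable_of_local hd hh hc0 hc fun p hp0 => ?_)
  have hmul : ∀ v : Fin n →₀ ℕ, n * v.degree ≤ d → c * v.degree < 1 := by
    intro v hv
    have hcd : c * d < n := by rwa [lt_div_iff₀ hdR] at hc
    have h1 : (n : ℝ) * v.degree ≤ d := by exact_mod_cast hv
    have h2 : c * (n * v.degree) ≤ c * d := mul_le_mul_of_nonneg_left h1 hc0.le
    have hn' : (0 : ℝ) ≤ n := Nat.cast_nonneg n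
    by_contra hcon
    rw [not_lt] at hcon
    nlinarith
  by_cases h0 : eval p f = 0
  swap
  · refine local_integrable (v := 0) ?_ hc0 (hmul 0 (by simp))
    rw [← constantCoeff_eq, Str.constantCoeff_translate]
    exact h0
  by_cases h1 : ∀ i, eval p (pderiv i f) = 0
  swap
  · push Not at h1
    obtain ⟨i, hi⟩ := h1
    refine local_integrable (v := Finsupp.single i 1) ?_ hc0 (hmul _ ?_)
    · rw [Str.coeff_single_eq, pderiv_translate, Str.constantCoeff_translate]
      exact hi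
    · rw [Finsupp.degree_single, mul_one]
      exact hnd
  rcases h p hp0 h0 h1 with h2 | ⟨v, hv, hv'⟩
  swap
  · exact local_integrable hv' hc0 (hmul v hv)
  obtain ⟨i, i', j, j', hmn⟩ := exists_minor_two h2
  have hc1 : c < 1 := by
    refine hc.trans_le ?_
    rw [div_le_one hdR]
    exact_mod_cast hnd
  have hev : ∀ q : MvPolynomial (Fin n) ℂ, eval 0 (translate p q) = eval p q := by
    intro q
    rw [eval_translate, zero_add]
  refine local_integrable2 (i := j) (i' := j') (j := i) (j' := i') (fun l => ?_) ?_ hc0 hc1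
  · rw [pderiv_translate, hev]
    exact h1 l
  · simp only [pderiv_translate, hev]
    intro hz
    apply hmn
    show eval p (pderiv i (pderiv j f)) * eval p (pderiv i' (pderiv j' f)) -
      eval p (pderiv i (pderiv j' f)) * eval p (pderiv i' (pderiv j f)) = 0
    linear_combination hz

end MPb07157
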